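import Pool.Agent.V11133.BEI.Lim
import Pool.Agent.TH577.UA.Smooth
import Pool.Agent.TH577.UA.Dom
set_option autoImplicit false

/-!
The regulator on `H^d(𝒳, ℚ(d))`, `d = dim 𝒳 = n + 1`, for models `𝒳` of the hypersurfaces
`λ g ∏_e L_e ^ (w_e + 1) = 1` of dimension `n ≥ 1` over a number field `K`, the `L_e` being arbitrary
different affine forms with integral coefficients whose maximal minors are zero or units: the limit
formula for the determinants of the regulators of unramified classes in Milnor K-theory, at all
complex embeddings `σ` of `K` at once. The determinant, divided by `(- log |σ λ|) ^ N`, tends to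
`∏_T (2π)^n (w_{T_0} + 1)^(n - 1)`, the product over the `N` bases `T` without broken circuits and of
internal activity zero, if `|σ λ|` tends to infinity.
-/

namespace Pool.Agent.Results.MP_51fc19_nt.ArrangementLimits

open Pool.Agent.TH826.MK (KQ symb Unramified Torus)

open Pool.Agent.TH826.GA (cm vtx)

open Pool.Agent.TH577.UA

/-- The data: affine forms `L_e = ∑_j c_{e,j} x_j - a_e` with coefficients in `K`, `0 ≤ e ≤ m`,
numbers `w_e` and a polynomial `g` with coefficients in `K`, in `n + 1` variables. -/
structure Data (K : Type*) [Field K] (n m : ℕ) where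
  /-- the coefficients `c_{e,j}` -/
  c : Fin (m + 1) → Fin (n + 1) → K
  /-- the constants `a_e` -/
  a : Fin (m + 1) → K
  /-- the numbers `w_e` -/
  w : Fin (m + 1) → ℕ
  /-- the polynomial `g` -/
  g : MvPolynomial (Fin (n + 1)) K

namespace Data

variable {K : Type*} [Field K] {n m : ℕ} (D : Data K n m)

/-- All coefficients are integral, all maximal minors of the linear parts are zero or units, not all
of them are zero, no form is a multiple of another one, and `g` does not vanish at the vertices of the
arrangement. -/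
def Good : Prop :=
  UMod D.c D.a ∧ (∃ T : Fin (n + 1) → Fin (m + 1), (cm D.c T).det ≠ 0) ∧ Distinct D.c D.a ∧
  (∀ k, IsIntegral ℤ (D.g.coeff k)) ∧
  ∀ T : Fin (n + 1) → Fin (m + 1), (cm D.c T).det ≠ 0 →
    MvPolynomial.eval (vtx D.c D.a T) D.g ≠ 0

/-- the equation of the hypersurface -/
noncomputable def eqn (lam : K) : MvPolynomial (Fin (n + 1)) K := aeqn lam D.g D.w D.c D.a

/-- the coordinate ring of the hypersurface -/
abbrev Ring (lam : K) : Type _ := ARing lam D.g D.w D.c D.a

/-- the symbol of the basis `T` -/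
noncomputable def sym (lam : K) (T : Fin (n + 1) → Fin (m + 1)) : KQ (D.Ring lam) (n + 1) :=
  symb (aent lam D.g D.w D.c D.a T)

/-- the index set -/
abbrev Index : Type := Ix D.c D.a

/-- the matrix of the regulators of the symbols on the tori `Γ_T` -/
noncomputable def regMat (lam : K) (Γ : D.Index → Torus (D.Ring lam) n) :
    Matrix D.Index D.Index ℝ :=
  Matrix.of fun T T' => (Γ T).reg (D.sym lam T'.1)

/-- the product `∏_T (2π)^n (w_{T_0} + 1)^(n - 1)` -/
noncomputable def limit : ℝ :=
  ∏ T : D.Index, (2 * Real.pi) ^ n * ((D.w (T.1 0) : ℝ) + 1) ^ (n - 1)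

/-- The hypersurface is smooth at the complex points over `σ`. -/
def SmoothOver (lam : K) (σ : K →+* ℂ) : Prop :=
  ∀ x : Fin (n + 1) → ℂ, MvPolynomial.eval₂ σ x (D.eqn lam) = 0 →
    ∃ j, MvPolynomial.eval₂ σ x (MvPolynomial.pderiv j (D.eqn lam)) ≠ 0

/-- The symbols of all the bases `T` have unramified images in the rational Milnor K-theory of all
fields with a homomorphism from the coordinate ring. -/
def UnramifiedSymbols.{u, v} {K : Type u} [Field K] {n m : ℕ} (D : Data K n m) (lam : K) : Prop :=
  ∀ (L : Type v) [Field L] (f : D.Ring lam →+* L) (T : Fin (n + 1) → Fin (m + 1)),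
    (cm D.c T).det ≠ 0 → KQ.map (n + 1) f (D.sym lam T) ∈ Unramified L (n + 1)

/-- There are tori `Γ_T` of dimension `n` in the complex points over `σ` such that the determinant of
the regulators of the symbols of the `T'` on the tori `Γ_T`, `T` and `T'` in `Ix`, is not zero and,
divided by `(- log |σ λ|) ^ N`, differs from `∏_T (2π)^n (w_{T_0} + 1)^(n - 1)` by less than `ε`. -/
def DeterminantWithin (lam : K) (σ : K →+* ℂ) (ε : ℝ) : Prop :=
  ∃ Γ : D.Index → Torus (D.Ring lam) n,
    (∀ T θ (x : K), (Γ T).e θ (acst lam D.g D.w D.c D.a x) = σ x) ∧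
    |(D.regMat lam Γ).det / (-Real.log ‖σ lam‖) ^ Fintype.card D.Index - D.limit| < ε ∧
    (D.regMat lam Γ).det ≠ 0

end Data

/-- Let `1 ≤ n`, let `K` be a number field and let `L_e = ∑_j c_{e,j} x_j - a_e`, `0 ≤ e ≤ m`, be
affine forms in `n + 1` variables with integral coefficients in `K`, such that all determinants
`det (c_{T_i,j})` of `n + 1` of the forms are zero or units (of the ring of algebraic integers), not
all of them are zero, and no form is a multiple of another one. Let `w_e ≥ 0` be integers and let `g`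
be a polynomial with integral coefficients which does not vanish at the vertices of the arrangement.
Let `A` be the coordinate ring of the hypersurface `λ g ∏_e L_e ^ (w_e + 1) = 1` of dimension `n`.

If `g = 1`, `λ ≠ 0` and `w_e = 0` for a nonconstant form `L_e`, the ring `A` is a domain.

For all algebraic integers `λ` of `K` and all `T = (T_0, ..., T_n)` with nonzero determinant the symbol
`{u_0, ..., u_n}`, `u_i = κ_i L_{T_i} / L_{h_i}` (`h_i` is the largest index such that the determinant
of `T` with `T_i` replaced by `h_i` is not zero and `κ_i` is the quotient of this determinant and of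
the one of `T`), has unramified images in the rational Milnor K-theory of all fields `L` with a
homomorphism `A → L`.

For every `ε > 0` there is a constant `C` such that for all `λ` in `K` and all complex embeddings `σ`
of `K` with `|σ λ| ≥ C` there are tori `Γ_T` of dimension `n` in the complex points over `σ` of the
hypersurface, such that the determinant of the regulators of the symbols of the `T'` on the tori `Γ_T`
does not vanish and, divided by `(-log |σ λ|) ^ N`, differs from `∏_T (2π)^n (w_{T_0} + 1)^(n - 1)` by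
less than `ε`; here `T` and `T'` run through the set `Ix` of all `T_0 < ... < T_n` with nonzero
determinant such that every `T_i` can be replaced by a later form (with nonzero determinant), and
every other form which vanishes at the vertex of `T` can replace a later form `T_i`, and `N` is the
number of the elements of `Ix`. If `g = 1`, the hypersurface is smooth over `σ`. -/
theorem result.{u, v} (n : ℕ) (hn : 1 ≤ n) (m : ℕ) (K : Type u) [Field K] [NumberField K]
    (D : Data K n m) (hD : D.Good) :
    (∀ lam : K, lam ≠ 0 → D.g = 1 → (∃ e, D.w e = 0 ∧ ∃ j, D.c e j ≠ 0) →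
      IsDomain (D.Ring lam)) ∧
    (∀ lam : K, IsIntegral ℤ lam → D.UnramifiedSymbols.{u, v} lam) ∧
    ∀ ε : ℝ, 0 < ε → ∃ C : ℝ, ∀ (lam : K) (σ : K →+* ℂ), C ≤ ‖σ lam‖ →
      (D.g = 1 → D.SmoothOver lam σ) ∧ D.DeterminantWithin lam σ ε := by
  classical
  obtain ⟨hA, hR, hdist, hg, hv⟩ := hD
  obtain ⟨d, rfl⟩ : ∃ d, n = d + 1 := ⟨n - 1, by omega⟩
  have hfin : Finite (K →+* ℂ) := inferInstance
  have hF : Fintype (K →+* ℂ) := Fintype.ofFinite _
  refine ⟨fun lam hl0 hg1 ⟨e, he1, he2⟩ => ?_, fun lam hlam L _ f T hT =>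
    symb_mem_unramified f hlam hg hA hT, fun ε hε => ?_⟩
  · unfold Data.Ring
    rw [hg1]
    exact isDomain_ARing hR hdist he2 he1 hl0
  have h1 : ∀ σ : K →+* ℂ, ∃ Λ : ℝ, ∀ lam : K, Λ ≤ ‖σ lam‖ →
      (D.g = 1 → D.SmoothOver lam σ) ∧ D.DeterminantWithin lam σ ε := by
    intro σ
    obtain ⟨c1, hc1, h⟩ := Pool.Agent.V11133.BEI.limit_tori (g := D.g) (w := D.w) σ hdist hv hε
    obtain ⟨c2, h2⟩ := exists_smooth (a := D.a) σ hR D.w
    refine ⟨max c1 c2, fun lam hl => ⟨fun hg1 => ?_, ?_⟩⟩
    · unfold Data.SmoothOver Data.eqn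
      rw [hg1]
      exact h2 lam ((le_max_right _ _).trans hl)
    · obtain ⟨Γ, h3, h4, h5⟩ := h lam ((le_max_left _ _).trans hl)
      refine ⟨Γ, h3, ?_, h5⟩
      have h6 : ∏ T : Ix D.c D.a, Pool.Agent.V11133.BEI.coef (d + 1) (D.w (T.1 0)) =
          ∏ T : Ix D.c D.a, (2 * Real.pi) ^ (d + 1) * ((D.w (T.1 0) : ℝ) + 1) ^ (d + 1 - 1) :=
        Finset.prod_congr rfl fun T _ => Pool.Agent.V11133.BEI.coef_eq hn _
      rw [h6] at h4
      exact h4
  choose Λ hΛ using h1
  refine ⟨∑ τ, |Λ τ|, fun lam σ hl => hΛ σ lam (le_trans ?_ hl)⟩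
  exact (le_abs_self _).trans
    (Finset.single_le_sum (f := fun τ => |Λ τ|) (fun τ _ => abs_nonneg _) (Finset.mem_univ σ))

end Pool.Agent.Results.MP_51fc19_nt.ArrangementLimits
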